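import Pool.Agent.Y165.GO.Fr

/-!
# Overcomplete frames of translates are not bounded operator orbits over the natural numbers

No ordering by the natural numbers of an overcomplete frame of translates is the orbit of a
bounded operator. The system of translates is a frame with a transitive symmetry group for its
closed linear span, and for such frames the canonical coefficients of all frame vectors have the
same norm; so the kernel of the inverse frame operator is a Toeplitz kernel in the given ordering
and vanishes off the diagonal.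
-/

set_option autoImplicit false

open MeasureTheory

namespace Pool.Agent.Results.MP_909498_an.NoBoundedOrbit

/-- The Hilbert space of square integrable complex functions on the real line. -/
noncomputable abbrev L2 := Lp ℂ 2 (volume : Measure ℝ)

/-- Translation: `translate a u` is the function `x ↦ u (x - a)`. -/
noncomputable def translate (a : ℝ) : L2 →ₗᵢ[ℂ] L2 :=
  Lp.compMeasurePreservingₗᵢ ℂ (fun x : ℝ => x - a) (measurePreserving_sub_right volume a)

/-- `translate a u` is the function `x ↦ u (x - a)`. -/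
theorem translate_apply (a : ℝ) (u : L2) :
    (translate a u : ℝ → ℂ) =ᵐ[volume] fun x => (u : ℝ → ℂ) (x - a) :=
  Lp.coeFn_compMeasurePreserving u (measurePreserving_sub_right volume a)

/-- Frame sequence: there are `A, B > 0` with `A ‖x‖² ≤ ∑ |⟨f i, x⟩|² ≤ B ‖x‖²` for all `x` in the
closed linear span of the family (and the sum converges). -/
def IsFrameSequence {H : Type*} [NormedAddCommGroup H] [InnerProductSpace ℂ H] {ι : Type*}
    (f : ι → H) : Prop :=
  ∃ A B : ℝ, 0 < A ∧ 0 < B ∧ ∀ x ∈ (Submodule.span ℂ (Set.range f)).topologicalClosure,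
    Summable (fun i => ‖inner ℂ (f i) x‖ ^ 2) ∧
    A * ‖x‖ ^ 2 ≤ ∑' i, ‖inner ℂ (f i) x‖ ^ 2 ∧ ∑' i, ‖inner ℂ (f i) x‖ ^ 2 ≤ B * ‖x‖ ^ 2

/-- The family is a Riesz basis for its closed linear span: there are `A, B > 0` with
`A ∑ |c i|² ≤ ‖∑ c i • f i‖² ≤ B ∑ |c i|²` for all finite families of scalars. -/
def IsRieszSequence {H : Type*} [NormedAddCommGroup H] [InnerProductSpace ℂ H] {ι : Type*}
    (f : ι → H) : Prop :=
  ∃ A B : ℝ, 0 < A ∧ 0 < B ∧ ∀ (s : Finset ι) (c : ι → ℂ),
    A * ∑ i ∈ s, ‖c i‖ ^ 2 ≤ ‖∑ i ∈ s, c i • f i‖ ^ 2 ∧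
    ‖∑ i ∈ s, c i • f i‖ ^ 2 ≤ B * ∑ i ∈ s, ‖c i‖ ^ 2

/-- The shift invariant system of `φ` with step `b`: the family of all translates of `φ` by the
integer multiples of `b`. -/
noncomputable def translates (φ : L2) (b : ℝ) : ℤ → L2 := fun k => translate (k * b) φ

/-- The sequence `F` is the orbit of a bounded operator: there is a bounded linear operator `V`
from the linear span of `F` to the space with `V (F k) = F (k + 1)` for all `k`, that is,
`F k = V ^ k (F 0)`. -/
def IsBoundedOrbit {H : Type*} [NormedAddCommGroup H] [InnerProductSpace ℂ H] (F : ℕ → H) : Prop :=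
  ∃ V : Submodule.span ℂ (Set.range F) →L[ℂ] H,
    ∀ k, V ⟨F k, Submodule.subset_span ⟨k, rfl⟩⟩ = F (k + 1)

open Pool.Agent.Results.MP_6c6e33_an.GaborOrbit Pool.Agent.Y165.GO

lemma translate_add (a b : ℝ) (u : L2) : translate a (translate b u) = translate (a + b) u := by
  apply Lp.ext
  have h1 := translate_apply a (translate b u)
  have h2 := translate_apply (a + b) u
  have h3 := (measurePreserving_sub_right (volume : Measure ℝ) a).quasiMeasurePreserving.ae
    (translate_apply b u)
  filter_upwards [h1, h2, h3] with x hx1 hx2 hx3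
  rw [hx1, hx2, hx3, sub_sub]

lemma translate_translates (φ : L2) (b : ℝ) (n k : ℤ) :
    translate (n * b) (translates φ b k) = translates φ b (n + k) := by
  unfold translates
  rw [translate_add]
  have e : (n : ℝ) * b + k * b = ((n + k : ℤ) : ℝ) * b := by push_cast; ring
  rw [e]

/-- The general statement: an overcomplete frame sequence, indexed by the integers and shifted by
isometries, has no ordering by the natural numbers which is the orbit of a bounded operator. -/
theorem general {H : Type*} [NormedAddCommGroup H] [InnerProductSpace ℂ H] [CompleteSpace H]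
    (f : ℤ → H) (U : ℤ → (H →ₗᵢ[ℂ] H)) (hU : ∀ n k, U n (f k) = f (n + k)) (hf0 : f 0 ≠ 0)
    (hframe : IsFrameSequence f) (hover : ¬ IsRieszSequence f)
    (σ : ℕ ≃ ℤ) : ¬ IsBoundedOrbit (fun k => f (σ k)) := by
  rintro ⟨V, hV⟩
  have hmem : ∀ k, f k ∈ (Submodule.span ℂ (Set.range f)).topologicalClosure := fun k =>
    Submodule.le_topologicalClosure _ (Submodule.subset_span ⟨k, rfl⟩)
  obtain ⟨K, hK⟩ : ∃ K, K = (Submodule.span ℂ (Set.range f)).topologicalClosure := ⟨_, rfl⟩
  rw [← hK] at hmem
  have hKc : CompleteSpace K := by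
    rw [hK]
    exact (Submodule.isClosed_topologicalClosure _).completeSpace_coe
  have hKn : Nontrivial K := ⟨⟨⟨f 0, hmem 0⟩, 0, fun h => hf0 (congrArg Subtype.val h)⟩⟩
  have hFrame : IsFrame (fun k : ℤ => (⟨f k, hmem k⟩ : K)) := by
    obtain ⟨A, B, hA, hB, h⟩ := hframe
    rw [← hK] at h
    exact ⟨A, B, hA, hB, fun x => h x x.2⟩
  have hstab : ∀ n : ℤ, ∀ x ∈ K, U n x ∈ K := by
    intro n x hx
    have h1 : Submodule.span ℂ (Set.range f) ≤
        (Submodule.span ℂ (Set.range f)).comap (U n).toLinearMap := by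
      rw [Submodule.span_le]
      rintro _ ⟨k, rfl⟩
      exact Submodule.subset_span ⟨n + k, (hU n k).symm⟩
    have h2 : Set.MapsTo (U n) (closure (Submodule.span ℂ (Set.range f) : Set H))
        (closure (Submodule.span ℂ (Set.range f) : Set H)) :=
      Set.MapsTo.closure (fun y hy => h1 hy) (U n).continuous
    rw [hK] at hx ⊢
    exact h2 hx
  have hgroup : IsGroupFrame (Λ := Multiplicative ℤ)
      (fun k => (⟨f (Multiplicative.toAdd k), hmem _⟩ : K)) := by
    refine ⟨hFrame, fun ν => ⟨
      { toLinearMap := (U (Multiplicative.toAdd ν)).toLinearMap.restrict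
          (hstab (Multiplicative.toAdd ν))
        norm_map' := fun x => (U _).norm_map (x : H) }, fun _ => 1, fun _ => norm_one,
      fun μ => ?_⟩⟩
    rw [one_smul]
    apply Subtype.ext
    exact hU (Multiplicative.toAdd ν) (Multiplicative.toAdd μ)
  have hnR : ¬ IsRieszBasis (fun k : ℤ => (⟨f k, hmem k⟩ : K)) := by
    rintro ⟨-, A, B, hA, hB, h⟩
    apply hover
    refine ⟨A, B, hA, hB, fun s c => ?_⟩
    have h1 := h s c
    have e : ‖∑ i ∈ s, c i • (⟨f i, hmem i⟩ : K)‖ = ‖∑ i ∈ s, c i • f i‖ := by
      rw [← Submodule.norm_coe, AddSubmonoidClass.coe_finsetSum]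
      rfl
    rw [e] at h1
    exact h1
  apply no_nat _ hgroup hnR
  refine ⟨σ.trans Multiplicative.ofAdd, ?_⟩
  show HasBoundedOrbit (fun k => (⟨f (σ k), hmem _⟩ : K))
  have hrange : Set.range (fun k => f (σ k)) = Set.range f := σ.surjective.range_comp f
  classical
  have hVK : ∀ x : Submodule.span ℂ (Set.range (fun k => f (σ k))), V x ∈ K := by
    rintro ⟨x, hx⟩
    induction hx using Submodule.span_induction with
    | mem x hx =>
      obtain ⟨k, rfl⟩ := hx
      have := hV k
      rw [this]
      exact hmem _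
    | zero =>
      have e : (⟨0, Submodule.zero_mem _⟩ :
          Submodule.span ℂ (Set.range (fun k => f (σ k)))) = 0 := rfl
      rw [e, map_zero]
      exact K.zero_mem
    | add x y hx hy ihx ihy =>
      have e : (⟨x + y, Submodule.add_mem _ hx hy⟩ :
          Submodule.span ℂ (Set.range (fun k => f (σ k)))) = ⟨x, hx⟩ + ⟨y, hy⟩ := rfl
      rw [e, map_add]
      exact K.add_mem ihx ihy
    | smul c x hx ihx =>
      have e : (⟨c • x, Submodule.smul_mem _ c hx⟩ :
          Submodule.span ℂ (Set.range (fun k => f (σ k)))) = c • ⟨x, hx⟩ := rfl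
      rw [e, map_smul]
      exact K.smul_mem c ihx
  have hspan : ∀ x ∈ (Submodule.span ℂ (Set.range (fun k => (⟨f (σ k), hmem _⟩ : K))) : Set K),
      (x : H) ∈ Submodule.span ℂ (Set.range (fun k => f (σ k))) := by
    intro x hx
    have h1 : (Submodule.span ℂ (Set.range (fun k => (⟨f (σ k), hmem _⟩ : K)))) ≤
        (Submodule.span ℂ (Set.range (fun k => f (σ k)))).comap K.subtype := by
      rw [Submodule.span_le]
      rintro _ ⟨k, rfl⟩
      exact Submodule.subset_span ⟨k, rfl⟩
    exact h1 hx
  refine ⟨fun x => if h : (x : H) ∈ Submodule.span ℂ (Set.range (fun k => f (σ k))) then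
    ⟨V ⟨x, h⟩, hVK _⟩ else 0, ⟨?_, ?_, ‖V‖, ?_⟩, ?_⟩
  · intro x hx y hy
    have h1 := hspan x hx
    have h2 := hspan y hy
    have h3 : ((x + y : K) : H) ∈ Submodule.span ℂ (Set.range (fun k => f (σ k))) :=
      Submodule.add_mem _ h1 h2
    rw [dif_pos h1, dif_pos h2, dif_pos h3]
    apply Subtype.ext
    exact V.map_add ⟨x, h1⟩ ⟨y, h2⟩
  · intro c x hx
    have h1 := hspan x hx
    have h3 : ((c • x : K) : H) ∈ Submodule.span ℂ (Set.range (fun k => f (σ k))) :=
      Submodule.smul_mem _ c h1
    rw [dif_pos h1, dif_pos h3]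
    apply Subtype.ext
    exact V.map_smul c ⟨x, h1⟩
  · intro x hx
    have h1 := hspan x hx
    rw [dif_pos h1]
    exact V.le_opNorm ⟨x, h1⟩
  · intro k
    have h1 : f (σ k) ∈ Submodule.span ℂ (Set.range (fun k => f (σ k))) :=
      Submodule.subset_span ⟨k, rfl⟩
    beta_reduce
    rw [dif_pos h1]
    apply Subtype.ext
    exact hV k

/-- **Theorem.** No ordering by the natural numbers of an overcomplete frame of translates is
represented by a bounded operator. -/
theorem result (φ : L2) (hφ : φ ≠ 0) (b : ℝ) (_hb : 0 < b)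
    (hframe : IsFrameSequence (translates φ b)) (hover : ¬ IsRieszSequence (translates φ b))
    (σ : ℕ ≃ ℤ) : ¬ IsBoundedOrbit (fun k => translates φ b (σ k)) := by
  apply general (translates φ b) (fun n => translate (n * b)) (translate_translates φ b)
    _ hframe hover
  intro h
  apply hφ
  have h1 : ‖translates φ b 0‖ = ‖φ‖ := (translate _).norm_map φ
  rw [h, norm_zero] at h1
  exact norm_eq_zero.1 h1.symm

end Pool.Agent.Results.MP_909498_an.NoBoundedOrbit
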